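import Mathlib

set_option autoImplicit false

/-!
# The maximal magnetic Schrödinger operator on a graph need not be closed

On a star graph with center `0` and leaves `1, 2, 3, ...`, with edge weights `2 ^ (-y)`, measure
`4 ^ (-y)` and potential `- 2 ^ y` at the leaf `y`, the maximal operator annihilates the values at
the leaves of every section vanishing at the center, and its value at the center is an unbounded
functional.
-/

namespace Pool.Agent.Results.MP_43f217_an.NotClosed

open Filter Topology

noncomputable section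

/-- A weighted graph over `X`. -/
structure WeightedGraph (X : Type) where
  /-- the edge weight -/
  b : X → X → ℝ
  nonneg : ∀ x y, 0 ≤ b x y
  symm : ∀ x y, b x y = b y x
  loopless : ∀ x, b x x = 0
  summable : ∀ x, Summable fun y => b x y

section

variable {X : Type} (G : WeightedGraph X) (μ : X → ℝ) (E : X → Type)
  [∀ x, NormedAddCommGroup (E x)] [∀ x, InnerProductSpace ℂ (E x)] [∀ x, CompleteSpace (E x)]

/-- A unitary connection: unitaries `Φ x y : E y → E x` with `Φ y x = (Φ x y)⁻¹`. -/
structure UnitaryConnection where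
  /-- the unitaries -/
  Φ : ∀ x y, E y ≃ₗᵢ[ℂ] E x
  inv : ∀ x y, Φ y x = (Φ x y).symm

/-- A self-adjoint bundle endomorphism. -/
structure SelfAdjointEndomorphism where
  /-- the operators on the fibres -/
  W : ∀ x, E x →L[ℂ] E x
  selfAdjoint : ∀ x, IsSelfAdjoint (W x)

variable {E}

/-- The formal domain: sections `f` with `∑ y, b x y ‖f y‖ < ∞` for all `x`. -/
def FormalDomain (f : ∀ x, E x) : Prop := ∀ x, Summable fun y => G.b x y * ‖f y‖

/-- The formal magnetic Schrödinger operator. -/
def formalOp (Φ : UnitaryConnection E) (W : SelfAdjointEndomorphism E) (f : ∀ x, E x) (x : X) :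
    E x :=
  ((1 / μ x : ℝ) : ℂ) • (∑' y, ((G.b x y : ℝ) : ℂ) • (f x - Φ.Φ x y (f y))) + W.W x (f x)

/-- Square summable sections. -/
def SqSummable (f : ∀ x, E x) : Prop := Summable fun x => ‖f x‖ ^ 2 * μ x

/-- The square of the norm of `ℓ²(X, μ; E)`. -/
def sqNorm (f : ∀ x, E x) : ℝ := ∑' x, ‖f x‖ ^ 2 * μ x

/-- The domain of the maximal restriction `M^max`. -/
def MaxDomain (Φ : UnitaryConnection E) (W : SelfAdjointEndomorphism E) (f : ∀ x, E x) : Prop :=
  FormalDomain G f ∧ SqSummable μ f ∧ SqSummable μ (formalOp G μ Φ W f)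

/-- `M^max` is a closed operator on `ℓ²(X, μ; E)`: if `f n` is in the domain, `f n → g` and
`M^max (f n) → h` in `ℓ²(X, μ; E)`, then `g` is in the domain and `M^max g = h`. -/
def MaxIsClosed (Φ : UnitaryConnection E) (W : SelfAdjointEndomorphism E) : Prop :=
  ∀ (f : ℕ → ∀ x, E x) (g h : ∀ x, E x), (∀ n, MaxDomain G μ Φ W (f n)) →
    SqSummable μ g → SqSummable μ h →
    Tendsto (fun n => sqNorm μ (fun x => f n x - g x)) atTop (𝓝 0) →
    Tendsto (fun n => sqNorm μ (fun x => formalOp G μ Φ W (f n) x - h x)) atTop (𝓝 0) →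
    MaxDomain G μ Φ W g ∧ formalOp G μ Φ W g = h

end

/-- The trivial connection of the scalar case. -/
def scalarConnection (X : Type) : UnitaryConnection (fun _ : X => ℂ) where
  Φ := fun _ _ => LinearIsometryEquiv.refl ℂ ℂ
  inv := fun _ _ => rfl

/-- The weights of the star graph. -/
def sb (x y : ℕ) : ℝ :=
  if x = 0 ∧ y ≠ 0 then (1 / 2) ^ y else if y = 0 ∧ x ≠ 0 then (1 / 2) ^ x else 0

theorem sb_zero (y : ℕ) : sb 0 y = if y = 0 then 0 else (1 / 2) ^ y := by
  unfold sb
  by_cases h : y = 0 <;> simp [h]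

theorem sb_pos {x : ℕ} (hx : x ≠ 0) (y : ℕ) : sb x y = if y = 0 then (1 / 2) ^ x else 0 := by
  unfold sb
  by_cases h : y = 0 <;> simp [h, hx]

/-- The star graph. -/
def star : WeightedGraph ℕ where
  b := sb
  nonneg := by
    intro x y
    unfold sb
    split_ifs <;> positivity
  symm := by
    intro x y
    unfold sb
    by_cases hx : x = 0 <;> by_cases hy : y = 0 <;> simp [hx, hy]
  loopless := by
    intro x
    unfold sb
    by_cases hx : x = 0 <;> simp [hx]
  summable := by
    intro x
    by_cases hx : x = 0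
    · subst hx
      refine Summable.of_nonneg_of_le (fun y => ?_) (fun y => ?_)
        (summable_geometric_of_lt_one (r := (1 / 2 : ℝ)) (by norm_num) (by norm_num))
      · rw [sb_zero]
        split_ifs <;> positivity
      · rw [sb_zero]
        split_ifs
        · positivity
        · exact le_rfl
    · refine summable_of_ne_finset_zero (s := {0}) fun y hy => ?_
      rw [sb_pos hx]
      simp at hy
      simp [hy]

/-- The measure. -/
def mu (x : ℕ) : ℝ := (1 / 4) ^ x

/-- The potential. -/
def pot (x : ℕ) : ℝ := if x = 0 then 0 else -(2 ^ x)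

/-- The potential as a bundle endomorphism. -/
def starW : SelfAdjointEndomorphism (fun _ : ℕ => ℂ) where
  W := fun x => ((pot x : ℝ) : ℂ) • ContinuousLinearMap.id ℂ ℂ
  selfAdjoint := by
    intro x
    rw [ContinuousLinearMap.isSelfAdjoint_iff_isSymmetric]
    intro u v
    simp [inner_smul_left, inner_smul_right]
    ring

/-- The sections converging to zero. -/
def fs (n : ℕ) (x : ℕ) : ℂ := if x ∈ Finset.Icc 1 (n + 1) then (((2 : ℝ) ^ x / (n + 1) : ℝ) : ℂ) else 0

theorem fs_zero (n : ℕ) : fs n 0 = 0 := by simp [fs]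

theorem fs_of_not_mem {n x : ℕ} (h : x ∉ Finset.Icc 1 (n + 1)) : fs n x = 0 := by
  simp only [fs, if_neg h]

theorem fs_of_mem {n x : ℕ} (h : x ∈ Finset.Icc 1 (n + 1)) :
    fs n x = (((2 : ℝ) ^ x / (n + 1) : ℝ) : ℂ) := by
  simp only [fs, if_pos h]

/-- The limit of the images. -/
def lim (x : ℕ) : ℂ := if x = 0 then -1 else 0

theorem op_fs (n : ℕ) : formalOp star mu (scalarConnection ℕ) starW (fs n) = lim := by
  funext x
  unfold formalOp
  by_cases hx : x = 0
  · subst hx
    have h1 : ∀ y : ℕ, ((star.b 0 y : ℝ) : ℂ) • (fs n 0 - (scalarConnection ℕ).Φ 0 y (fs n y)) =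
        -(((sb 0 y : ℝ) : ℂ) * fs n y) := by
      intro y
      have : (scalarConnection ℕ).Φ 0 y (fs n y) = fs n y := rfl
      rw [this, fs_zero, zero_sub, smul_eq_mul, mul_neg]
      rfl
    simp only [h1]
    rw [tsum_eq_sum (s := Finset.Icc 1 (n + 1)) (fun y hy => by rw [fs_of_not_mem hy]; simp)]
    have h2 : ∀ y ∈ Finset.Icc 1 (n + 1), -(((sb 0 y : ℝ) : ℂ) * fs n y) = -(1 / (n + 1) : ℂ) := by
      intro y hy
      have hy0 : y ≠ 0 := by
        rw [Finset.mem_Icc] at hy
        omega
      rw [fs_of_mem hy, sb_zero, if_neg hy0, ← Complex.ofReal_mul]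
      have : (1 / 2 : ℝ) ^ y * (2 ^ y / (n + 1)) = 1 / (n + 1) := by
        rw [← mul_div_assoc, ← mul_pow]
        norm_num
      rw [this]
      push_cast
      ring
    rw [Finset.sum_congr rfl h2, Finset.sum_const, Nat.card_Icc]
    have hn : ((n : ℂ) + 1) ≠ 0 := by exact_mod_cast Nat.succ_ne_zero n
    have h3 : starW.W 0 (fs n 0) = 0 := by rw [fs_zero, map_zero]
    rw [h3]
    simp only [mu, lim, nsmul_eq_mul, add_tsub_cancel_right]
    push_cast
    field_simp
    simp
  · have h1 : ∀ y : ℕ, ((star.b x y : ℝ) : ℂ) • (fs n x - (scalarConnection ℕ).Φ x y (fs n y)) =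
        if y = 0 then (((1 / 2 : ℝ) ^ x : ℝ) : ℂ) * fs n x else 0 := by
      intro y
      have e1 : (scalarConnection ℕ).Φ x y (fs n y) = fs n y := rfl
      have e2 : star.b x y = sb x y := rfl
      rw [e1, e2, sb_pos hx]
      by_cases hy : y = 0
      · subst hy
        rw [fs_zero]
        simp
      · simp [hy]
    simp only [h1]
    rw [tsum_ite_eq]
    have h3 : starW.W x (fs n x) = -((2 : ℂ) ^ x * fs n x) := by
      show ((pot x : ℝ) : ℂ) • fs n x = _
      simp only [pot, if_neg hx, smul_eq_mul]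
      push_cast
      ring
    rw [h3]
    simp only [lim, if_neg hx, smul_eq_mul]
    have h4 : (((1 / mu x : ℝ)) : ℂ) * ((((1 / 2 : ℝ) ^ x : ℝ) : ℂ) * fs n x) =
        (2 : ℂ) ^ x * fs n x := by
      rw [← mul_assoc, ← Complex.ofReal_mul]
      have : 1 / mu x * (1 / 2) ^ x = 2 ^ x := by
        unfold mu
        rw [one_div, ← inv_pow, ← mul_pow]
        norm_num
      rw [this]
      push_cast
      ring
    rw [h4]
    ring

theorem lim_sq : SqSummable mu lim := by
  refine summable_of_ne_finset_zero (s := {0}) fun y hy => ?_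
  simp at hy
  simp [lim, hy]

theorem dom_fs (n : ℕ) : MaxDomain star mu (scalarConnection ℕ) starW (fs n) := by
  refine ⟨fun x => ?_, ?_, ?_⟩
  · refine summable_of_ne_finset_zero (s := Finset.Icc 1 (n + 1)) fun y hy => ?_
    rw [fs_of_not_mem hy]
    simp
  · refine summable_of_ne_finset_zero (s := Finset.Icc 1 (n + 1)) fun y hy => ?_
    rw [fs_of_not_mem hy]
    simp
  · rw [op_fs]
    exact lim_sq

theorem sqNorm_fs (n : ℕ) : sqNorm mu (fun x => fs n x - 0) = 1 / ((n : ℝ) + 1) := by
  unfold sqNorm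
  rw [tsum_eq_sum (s := Finset.Icc 1 (n + 1)) (fun y hy => by simp [fs_of_not_mem hy])]
  have h2 : ∀ y ∈ Finset.Icc 1 (n + 1), ‖fs n y - 0‖ ^ 2 * mu y = 1 / ((n : ℝ) + 1) ^ 2 := by
    intro y hy
    rw [fs_of_mem hy, sub_zero, Complex.norm_real, Real.norm_eq_abs, sq_abs, div_pow, mu,
      div_mul_eq_mul_div]
    have : ((2 : ℝ) ^ y) ^ 2 * (1 / 4) ^ y = 1 := by
      rw [← pow_mul, mul_comm y 2, pow_mul, ← mul_pow]
      norm_num
    rw [this]
  rw [Finset.sum_congr rfl h2, Finset.sum_const, Nat.card_Icc]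
  have hn : ((n : ℝ) + 1) ≠ 0 := by positivity
  simp only [nsmul_eq_mul, add_tsub_cancel_right]
  push_cast
  field_simp

/-- **Main theorem.** There are a weighted graph over a countable set, a weight, and a
self-adjoint bundle endomorphism (a real potential) for the scalar bundle with the trivial
connection such that the maximal restriction of the formal magnetic Schrödinger operator is not
closed, and not even closable: there are `f n` in the domain with `f n → 0` and
`M^max (f n) → h` in `ℓ²(X, μ; E)`, where `h ≠ 0`. -/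
theorem result : ∃ (G : WeightedGraph ℕ) (μ : ℕ → ℝ)
    (W : SelfAdjointEndomorphism (fun _ : ℕ => ℂ)), (∀ x, 0 < μ x) ∧
    ¬ MaxIsClosed G μ (scalarConnection ℕ) W ∧
    ∃ (f : ℕ → ℕ → ℂ) (h : ℕ → ℂ), (∀ n, MaxDomain G μ (scalarConnection ℕ) W (f n)) ∧
      SqSummable μ h ∧ h ≠ 0 ∧ Tendsto (fun n => sqNorm μ (f n)) atTop (𝓝 0) ∧
      Tendsto (fun n => sqNorm μ (fun x => formalOp G μ (scalarConnection ℕ) W (f n) x - h x))
        atTop (𝓝 0) := by
  have h0 : lim ≠ 0 := by
    intro h
    have := congrFun h 0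
    simp [lim] at this
  have h1 : Tendsto (fun n => sqNorm mu (fun x => fs n x - 0)) atTop (𝓝 0) := by
    simp only [sqNorm_fs]
    exact tendsto_one_div_add_atTop_nhds_zero_nat
  have h2 : Tendsto (fun n => sqNorm mu
      (fun x => formalOp star mu (scalarConnection ℕ) starW (fs n) x - lim x)) atTop (𝓝 0) := by
    have : (fun n => sqNorm mu
      (fun x => formalOp star mu (scalarConnection ℕ) starW (fs n) x - lim x)) = fun _ => 0 := by
      funext n
      simp only [op_fs]
      simp [sqNorm]
    rw [this]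
    exact tendsto_const_nhds
  refine ⟨star, mu, starW, fun x => by unfold mu; positivity, ?_, fs, lim, dom_fs, lim_sq, h0,
    ?_, h2⟩
  · intro hc
    obtain ⟨_, h3⟩ := hc fs (fun _ => 0) lim dom_fs (by
      unfold SqSummable
      simp [summable_zero]) lim_sq h1 h2
    apply h0
    rw [← h3]
    funext x
    unfold formalOp
    simp
  · have e : (fun n => sqNorm mu (fun x => fs n x - 0)) = fun n => sqNorm mu (fs n) := by
      funext n
      congr 1
      funext x
      rw [sub_zero]
    rwa [e] at h1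

end

end Pool.Agent.Results.MP_43f217_an.NotClosed
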